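import Mathlib

/-! Horizontal class transpositions of moduli `2, …, k` generate `S_N`, `N = lcm(2, …, k)`. -/

set_option autoImplicit false

namespace Pool.Agent.Results.MP_8fd2f5_al.Symmetric

open Equiv

/-- `g` is the horizontal class transposition of the classes `r` and `s` modulo `m`. -/
def IsHCT (m r s : ℕ) (g : Perm ℤ) : Prop :=
  (∀ j : ℤ, g (r + j * m) = s + j * m ∧ g (s + j * m) = r + j * m) ∧
    ∀ x : ℤ, ¬ x ≡ r [ZMOD m] → ¬ x ≡ s [ZMOD m] → g x = x

/-- The group generated by the horizontal class transpositions of moduli `2, …, k`. -/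
def CT (k : ℕ) : Subgroup (Perm ℤ) :=
  Subgroup.closure {g | ∃ m r s, 2 ≤ m ∧ m ≤ k ∧ r < s ∧ s < m ∧ IsHCT m r s g}

lemma IsHCT.unique {m r s : ℕ} {g g' : Perm ℤ} (h : IsHCT m r s g) (h' : IsHCT m r s g') :
    g = g' := by
  ext x
  by_cases h1 : x ≡ r [ZMOD m]
  · obtain ⟨j, hj⟩ := h1.symm.dvd
    rw [show x = r + j * m by linarith, (h.1 j).1, (h'.1 j).1]
  by_cases h2 : x ≡ s [ZMOD m]
  · obtain ⟨j, hj⟩ := h2.symm.dvd
    rw [show x = s + j * m by linarith, (h.1 j).2, (h'.1 j).2]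
  rw [h.2 x h1 h2, h'.2 x h1 h2]

def tf (m r s x : ℕ) : ℕ := if x % m = r then x - r + s else if x % m = s then x - s + r else x

lemma tf_eq {m r s i : ℕ} (hi : i < m) (j : ℕ) : tf m r s (i + m * j) = swap r s i + m * j := by
  rw [tf, Nat.add_mul_mod_self_left, Nat.mod_eq_of_lt hi, swap_apply_def]
  split_ifs <;> omega

lemma sw_lt {m r s i : ℕ} (hr : r < m) (hs : s < m) (hi : i < m) : swap r s i < m := by
  rw [swap_apply_def]; split_ifs <;> assumption

lemma tf_inv {m r s : ℕ} (hr : r < m) (hs : s < m) (x : ℕ) : tf m r s (tf m r s x) = x := by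
  have hm := Nat.mod_lt x (hr.trans_le' (Nat.zero_le _))
  conv_lhs => rw [← Nat.mod_add_div x m, tf_eq hm, tf_eq (sw_lt hr hs hm), swap_apply_self]
  exact Nat.mod_add_div x m

lemma tf_lt {L m r s : ℕ} (h : m ∣ L) (hr : r < m) (hs : s < m) {x : ℕ} (hx : x < L) :
    tf m r s x < L := by
  have hm := Nat.mod_lt x (hr.trans_le' (Nat.zero_le _))
  obtain ⟨c, rfl⟩ := h
  rw [← Nat.mod_add_div x m, tf_eq hm]
  have h1 := sw_lt hr hs hm
  have h2 : x / m + 1 ≤ c := Nat.div_lt_of_lt_mul hx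
  nlinarith

def T (L m r s : ℕ) : Perm (Fin L) :=
  if h : m ∣ L ∧ r < m ∧ s < m then
    Function.Involutive.toPerm (fun x => ⟨tf m r s x, tf_lt h.1 h.2.1 h.2.2 x.2⟩)
      fun x => Fin.ext (tf_inv h.2.1 h.2.2 x)
  else 1

lemma T_val {L m r s : ℕ} (h : m ∣ L) (hr : r < m) (hs : s < m) (x : Fin L) :
    (T L m r s x : ℕ) = tf m r s x := by rw [T, dif_pos ⟨h, hr, hs⟩]; rfl

lemma T_T (L m r s : ℕ) (x : Fin L) : T L m r s (T L m r s x) = x := by
  by_cases h : m ∣ L ∧ r < m ∧ s < m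
  · exact Fin.ext (by rw [T_val h.1 h.2.1 h.2.2, T_val h.1 h.2.1 h.2.2, tf_inv h.2.1 h.2.2])
  · simp [T, h]

lemma T_inv (L m r s : ℕ) : (T L m r s)⁻¹ = T L m r s :=
  inv_eq_of_mul_eq_one_right (Perm.ext (T_T L m r s))

lemma T_small {L m r s : ℕ} (h : m ∣ L) (hr : r < m) (hs : s < m) (x : Fin L) (hx : x.1 < m) :
    (T L m r s x : ℕ) = swap r s x.1 := by
  rw [T_val h hr hs]; simpa using tf_eq (r := r) (s := s) hx 0

def E (L : ℕ) [NeZero L] : Perm (Fin L) →* Perm ℤ where
  toFun σ := (Int.divModEquiv L).symm.permCongr (Equiv.prodCongr (Equiv.refl ℤ) σ)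
  map_one' := Equiv.ext fun x => (Int.divModEquiv L).symm_apply_apply x
  map_mul' a b := Equiv.ext fun x => by
    simp only [permCongr_apply, symm_symm, Perm.mul_apply, apply_symm_apply]; rfl

lemma E_apply (L : ℕ) [NeZero L] (σ : Perm (Fin L)) (j : ℤ) (i : Fin L) :
    E L σ (j * L + i) = j * L + σ i := by
  have : (Int.divModEquiv L) (j * L + i) = (j, i) := (Int.divModEquiv L).apply_symm_apply (j, i)
  change (Int.divModEquiv L).symm (Prod.map id σ (Int.divModEquiv L (j * L + i))) = _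
  rw [this]; rfl

lemma E_inj (L : ℕ) [NeZero L] : Function.Injective (E L) := fun a b h => Perm.ext fun i => by
  have := E_apply L a 0 i
  rw [h, E_apply] at this
  exact Fin.ext (by omega)

lemma E_T {L m r s : ℕ} [NeZero L] (h : m ∣ L) (hr : r < m) (hs : s < m) :
    IsHCT m r s (E L (T L m r s)) := by
  have key : ∀ (i : ℕ) (j : ℤ), i < m → E L (T L m r s) (i + j * m) = swap r s i + j * m := by
    intro i j hi
    obtain ⟨⟨a, b⟩, hab⟩ := (Int.divModEquiv L).symm.surjective (i + j * m)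
    change a * L + b = _ at hab
    have hm := Nat.mod_lt b (hr.trans_le' (Nat.zero_le _))
    have hb : (b : ℤ) = (b.1 % m : ℕ) + m * (b.1 / m : ℕ) := by exact_mod_cast (Nat.mod_add_div _ _).symm
    obtain ⟨c, hc⟩ := h
    have hc' : (L : ℤ) = m * c := by exact_mod_cast hc
    have e : ((b.1 % m : ℕ) : ℤ) = i := by
      have h1 : (m : ℤ) ∣ (b.1 % m : ℕ) - i :=
        ⟨j - a * c - (b.1 / m : ℕ), by linear_combination hab - hb - a * hc'⟩
      have := Int.eq_zero_of_abs_lt_dvd h1 (by rw [abs_lt]; omega)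
      omega
    rw [← hab, E_apply, T_val ⟨c, hc⟩ hr hs, ← Nat.mod_add_div b m, tf_eq hm,
      show b.1 % m = i by exact_mod_cast e]
    push_cast at hb e ⊢
    linarith
  refine ⟨fun j => ⟨by simpa using key r j hr, by simpa using key s j hs⟩, fun x h1 h2 => ?_⟩
  have hm : (0 : ℤ) < m := by omega
  have h3 := Int.emod_nonneg x hm.ne'
  have h4 := Int.emod_lt_of_pos x hm
  obtain ⟨i, hi⟩ := Int.eq_ofNat_of_zero_le h3
  have hx : x = i + (x / m) * m := by rw [← hi]; exact (Int.emod_add_ediv_mul x m).symm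
  have n1 : ∀ t : ℕ, t < m → ¬ x ≡ t [ZMOD m] → i ≠ t := fun t ht h e => h (by
    rw [Int.ModEq, hi, e, Int.emod_eq_of_lt (by omega) (by omega)])
  conv_lhs => rw [hx, key i _ (by omega), swap_apply_of_ne_of_ne (n1 r hr h1) (n1 s hs h2)]
  exact hx.symm

lemma comm3 {α : Type*} [DecidableEq α] (c a : Perm α) (ha : ∀ x, a (a x) = x) (u : α)
    (h : ∀ x, c x ≠ x → a x ≠ x → x = u) (h2 : a u ≠ u) :
    c * a * c⁻¹ * a = swap (c u) (a u) * swap u (a u) := by
  have hv : c (a u) = a u := by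
    by_contra hc
    exact h2 (h _ hc (by rw [ha]; exact h2.symm))
  have hd : Perm.Disjoint c (swap u (a u) * a) := fun x => by
    by_cases e1 : x = u
    · right; simp [e1]
    by_cases e2 : x = a u
    · left; rw [e2, hv]
    by_cases e3 : a x = x
    · right; rw [Perm.mul_apply, e3, swap_apply_of_ne_of_ne e1 e2]
    · left; by_contra hc; exact e1 (h x hc e3)
  have h3 : a * a = 1 := Perm.ext ha
  calc c * a * c⁻¹ * a = c * swap u (a u) * ((swap u (a u) * a) * c⁻¹) * a := by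
        simp [← mul_assoc]
    _ = c * swap u (a u) * c⁻¹ * swap u (a u) := by
        rw [← hd.commute.inv_left.eq]; simp [mul_assoc, h3]
    _ = _ := by rw [← swap_apply_apply, hv]

section
variable {L M q : ℕ} (H : Subgroup (Perm (Fin L)))

lemma conj_mem {x y z : Fin L} (h : swap x z * swap y z ∈ H) {g : Perm (Fin L)} (hg : g ∈ H) :
    swap (g x) (g z) * swap (g y) (g z) ∈ H := by
  have := H.mul_mem (H.mul_mem hg h) (H.inv_mem hg)
  rw [swap_apply_apply, swap_apply_apply]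
  convert this using 1
  group

/-- from one 3-cycle and adjacent moves to the alternating group -/
lemma alt (h3 : 3 ≤ L) (h0 : swap ⟨0, by omega⟩ ⟨2, by omega⟩ * swap ⟨1, by omega⟩ ⟨2, by omega⟩ ∈ H)
    (hadj : ∀ n : ℕ, ∀ hn : n + 1 < L, ∃ a ∈ H, a ⟨n, by omega⟩ = ⟨n + 1, hn⟩ ∧
      ∀ x : Fin L, (a x).1 ≤ x.1 + 1) (g : Perm (Fin L)) (hg : g.sign = 1) : g ∈ H := by
  have key : ∀ n, 2 ≤ n → ∀ g : Perm (Fin L), g.sign = 1 → (∀ x : Fin L, n ≤ x.1 → g x = x) →
      g ∈ H := by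
    intro n hn
    induction n, hn using Nat.le_induction with
    | base =>
      intro g hg hx
      have hlt : ∀ x : Fin L, x.1 < 2 → (g x).1 < 2 := fun x h => by
        by_contra h'
        have := g.injective (hx (g x) (by omega))
        omega
      by_cases e : g ⟨0, by omega⟩ = ⟨0, by omega⟩
      · convert H.one_mem
        refine Perm.ext fun x => ?_
        by_cases h : x.1 < 2
        · by_cases h' : x = ⟨0, by omega⟩
          · rw [h', e]; rfl
          · have h1 := hlt x h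
            have h2 : g x ≠ ⟨0, by omega⟩ := fun e' => h' (g.injective (e'.trans e.symm))
            simp only [Fin.ext_iff, ne_eq, Perm.one_apply] at *
            omega
        · exact hx x (by omega)
      · exfalso
        have : g = swap ⟨0, by omega⟩ ⟨1, by omega⟩ := by
          have e1 : g ⟨0, by omega⟩ = ⟨1, by omega⟩ := by
            have := hlt ⟨0, by omega⟩ (by simp)
            simp only [Fin.ext_iff] at *; omega
          refine Perm.ext fun x => ?_
          rw [swap_apply_def]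
          split_ifs with a1 a2
          · rw [a1, e1]
          · have h1 := hlt x (by simp [a2])
            have h2 : g x ≠ ⟨1, by omega⟩ := fun e' => a1 (g.injective (e'.trans e1.symm))
            simp only [Fin.ext_iff, ne_eq] at *
            omega
          · exact hx x (by simp only [Fin.ext_iff] at *; omega)
        rw [this, Perm.sign_swap (by simp [Fin.ext_iff])] at hg
        exact absurd hg (by decide)
    | succ n hn ih =>
      intro g hg hx
      by_cases hL : n < L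
      swap
      · exact ih g hg fun x h => absurd x.2 (by omega)
      have three : ∀ x y z : Fin L, x ≠ z → y ≠ z → (swap x z * swap y z).sign = 1 :=
        fun x y z h1 h2 => by simp [Perm.sign_swap h1, Perm.sign_swap h2]
      have fix3 : ∀ (x y z w : Fin L), x.1 < w.1 → y.1 < w.1 → z.1 < w.1 →
          (swap x z * swap y z) w = w := fun x y z w h1 h2 h3 => by
        have : w ≠ x ∧ w ≠ y ∧ w ≠ z := by simp only [Fin.ext_iff, ne_eq]; omega
        simp [swap_apply_of_ne_of_ne, this]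
      have hh : ∃ x y : Fin L, x.1 < n ∧ y.1 < n ∧ x ≠ y ∧
          swap x ⟨n, hL⟩ * swap y ⟨n, hL⟩ ∈ H := by
        rcases hn.eq_or_lt with rfl | hn'
        · exact ⟨_, _, by simp, by simp, by simp, h0⟩
        · obtain ⟨n, rfl⟩ : ∃ m, n = m + 1 := ⟨n - 1, by omega⟩
          obtain ⟨a, ha, e, hb⟩ := hadj n hL
          have := conj_mem H (ih (swap ⟨0, by omega⟩ ⟨n, by omega⟩ * swap ⟨1, by omega⟩ ⟨n, by omega⟩)
            (three _ _ _ (by simp [Fin.ext_iff]; omega) (by simp [Fin.ext_iff]; omega))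
            fun w hw => fix3 _ _ _ _ (by simp; omega) (by simp; omega) (by simp; omega)) ha
          rw [e] at this
          have b0 := hb ⟨0, by omega⟩
          have b1 := hb ⟨1, by omega⟩
          exact ⟨_, _, by simp at b0; omega, by simp at b1; omega, by simp, this⟩
      obtain ⟨x, y, hx', hy', hxy, hm⟩ := hh
      have hall : ∀ t : Fin L, t.1 < n → ∃ h ∈ H, h.sign = 1 ∧ h ⟨n, hL⟩ = t ∧
          ∀ w : Fin L, n < w.1 → h w = w := fun t ht => by
        have nx : x ≠ ⟨n, hL⟩ := by simp [Fin.ext_iff]; omega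
        have ny : y ≠ ⟨n, hL⟩ := by simp [Fin.ext_iff]; omega
        have v1 : (swap x ⟨n, hL⟩ * swap y ⟨n, hL⟩) ⟨n, hL⟩ = y := by
          simp [swap_apply_of_ne_of_ne hxy.symm ny]
        by_cases t1 : t = y
        · exact ⟨_, hm, three _ _ _ nx ny, by rw [v1, t1], fun w hw => fix3 _ _ _ _ (by omega)
            (by omega) hw⟩
        by_cases t2 : t = x
        · refine ⟨swap y ⟨n, hL⟩ * swap x ⟨n, hL⟩, by simpa using H.inv_mem hm, three _ _ _ ny nx,
            by simp [swap_apply_of_ne_of_ne hxy nx, t2], fun w hw => fix3 _ _ _ _ (by omega)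
            (by omega) hw⟩
        · refine ⟨swap x y * swap t y * (swap x ⟨n, hL⟩ * swap y ⟨n, hL⟩), H.mul_mem
            (ih _ (three _ _ _ hxy t1) fun w hw => fix3 _ _ _ _ (by omega)
            (by omega) (by omega)) hm, ?_, ?_, fun w hw => ?_⟩
          · rw [map_mul, three _ _ _ hxy t1, three _ _ _ nx ny, one_mul]
          · rw [Perm.mul_apply, v1]
            simp [swap_apply_of_ne_of_ne t2 t1]
          · rw [Perm.mul_apply, fix3 x y ⟨n, hL⟩ w (by omega) (by omega) hw,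
              fix3 _ _ _ _ (by omega) (by omega) (by omega)]
      by_cases e : g ⟨n, hL⟩ = ⟨n, hL⟩
      · refine ih g hg fun w hw => ?_
        rcases hw.eq_or_lt with h | h
        · rw [show w = ⟨n, hL⟩ from Fin.ext h.symm, e]
        · exact hx w h
      · obtain ⟨h, h1, h2, h4, h5⟩ := hall (g ⟨n, hL⟩) (by
          by_contra h'
          have h6 : (g ⟨n, hL⟩).1 ≠ n := fun e' => e (Fin.ext e')
          exact e (g.injective (hx (g ⟨n, hL⟩) (by omega))))
        have := ih (h⁻¹ * g) (by simp [hg, h2]) fun w hw => by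
          rw [Perm.mul_apply, Perm.inv_eq_iff_eq]
          rcases hw.eq_or_lt with h | h
          · rw [show w = ⟨n, hL⟩ from Fin.ext h.symm, h4]
          · rw [hx w h, h5 w h]
        simpa using H.mul_mem h1 this
  exact key L (by omega) g hg fun x h => absurd x.2 (by omega)

lemma tf_adj (m r x : ℕ) : tf m r (r + 1) x ≤ x + 1 := by
  have := Nat.mod_le x m
  rw [tf]; split_ifs <;> omega

lemma sign_T {m : ℕ} (h : m ∣ L) (hm : 2 ≤ m) (ho : Odd (L / m)) : (T L m 0 1).sign = -1 := by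
  obtain ⟨c, rfl⟩ := h
  rw [Nat.mul_div_cancel_left _ (by omega)] at ho
  rw [← Perm.sign_eq_sign_of_equiv (prodCongrRight fun _ : Fin c =>
    swap (⟨0, by omega⟩ : Fin m) ⟨1, by omega⟩) _ (finProdFinEquiv.trans (finCongr (mul_comm c m)))]
  · rw [Perm.sign_prodCongrRight]
    simp [ho.neg_one_pow]
  · rintro ⟨a, b⟩
    apply Fin.ext
    rw [T_val (dvd_mul_right _ _) (by omega) (by omega)]
    simp only [trans_apply, finCongr_apply, Fin.val_cast, finProdFinEquiv_apply_val,
      prodCongrRight_apply, tf_eq b.2, swap_apply_def, Fin.ext_iff]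
    split_ifs <;> rfl

lemma top (hL : L = Nat.lcm M q) (hM : 3 ≤ M) (hq : 2 ≤ q)
    (h1 : ∀ r s, T L M r s ∈ H) (h2 : ∀ r s, T L q r s ∈ H) (h3 : 3 ≤ L)
    (h0 : swap ⟨0, by omega⟩ ⟨2, by omega⟩ * swap ⟨1, by omega⟩ ⟨2, by omega⟩ ∈ H) : H = ⊤ := by
  have d1 : M ∣ L := hL ▸ Nat.dvd_lcm_left _ _
  have d2 : q ∣ L := hL ▸ Nat.dvd_lcm_right _ _
  have ha := alt H h3 h0 fun n hn => by
    have aux : ∀ m, m ∣ L → 0 < m → (∀ r s, T L m r s ∈ H) → ¬ m ∣ n + 1 →
        ∃ a ∈ H, a ⟨n, by omega⟩ = ⟨n + 1, hn⟩ ∧ ∀ x : Fin L, (a x).1 ≤ x.1 + 1 := by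
      intro m d hm h hd
      have a1 := Nat.mod_lt n hm
      have a2 : n % m + 1 < m := by
        by_contra hc
        exact hd ⟨n / m + 1, by have := Nat.mod_add_div n m; rw [mul_add]; omega⟩
      refine ⟨_, h (n % m) (n % m + 1), Fin.ext ?_, fun x => ?_⟩
      · rw [T_val d a1 a2, tf, if_pos rfl]
        have := Nat.mod_le n m
        simp only; omega
      · rw [T_val d a1 a2]; exact tf_adj _ _ _
    by_cases c1 : M ∣ n + 1
    · refine aux q d2 (by omega) h2 fun c2 => ?_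
      have := Nat.le_of_dvd (by omega) (Nat.lcm_dvd c1 c2)
      omega
    · exact aux M d1 (by omega) h1 c1
  obtain ⟨o, ho, hs⟩ : ∃ o ∈ H, o.sign = -1 := by
    by_cases c1 : Odd (L / M)
    · exact ⟨_, h1 0 1, sign_T d1 (by omega) c1⟩
    refine ⟨_, h2 0 1, sign_T d2 hq ?_⟩
    by_contra c2
    obtain ⟨a, ea⟩ := Nat.not_odd_iff_even.1 c1
    obtain ⟨b, eb⟩ := Nat.not_odd_iff_even.1 c2
    have e1 := Nat.mul_div_cancel' d1
    have e2 := Nat.mul_div_cancel' d2
    rw [ea, mul_add] at e1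
    rw [eb, mul_add] at e2
    have := Nat.le_of_dvd (by omega) (Nat.lcm_dvd (dvd_mul_right M a) (⟨b, by omega⟩ : q ∣ M * a))
    omega
  rw [eq_top_iff]
  intro g _
  rcases Int.units_eq_one_or g.sign with h | h
  · exact ha g h
  · simpa using H.mul_mem (ha (g * o) (by simp [h, hs])) (H.inv_mem ho)

lemma three7 (hL : L = Nat.lcm M q) (hM : 7 ≤ M) (hq : 2 ≤ q)
    (h1 : ∀ r s, T L M r s ∈ H) (h2 : ∀ r s, T L q r s ∈ H) (h3 : 7 ≤ L) :
    swap ⟨0, by omega⟩ ⟨2, by omega⟩ * swap ⟨1, by omega⟩ ⟨2, by omega⟩ ∈ H := by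
  have d1 : M ∣ L := hL ▸ Nat.dvd_lcm_left _ _
  have d2 : q ∣ L := hL ▸ Nat.dvd_lcm_right _ _
  set a := T L M 0 3
  set b := T L q 0 1
  have av : ∀ x : Fin L, (a x).1 = tf M 0 3 x := T_val d1 (by omega) (by omega)
  have bv : ∀ x : Fin L, (b x).1 = tf q 0 1 x := T_val d2 (by omega) (by omega)
  have aa : ∀ x, a (a x) = x := T_T _ _ _ _
  have bb : ∀ x, b (b x) = x := T_T _ _ _ _
  have as : ∀ x : Fin L, x.1 < M → (a x).1 = swap 0 3 x.1 := T_small d1 (by omega) (by omega)
  have am : ∀ x : Fin L, a x ≠ x → x.1 % M = 0 ∨ x.1 % M = 3 := fun x hx => by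
    by_contra! hc
    exact hx (Fin.ext (by rw [av, tf, if_neg hc.1, if_neg hc.2]))
  have bm : ∀ x : Fin L, (b x).1 = x.1 + 1 ∧ x.1 % q = 0 ∨ (b x).1 + 1 = x.1 ∨ b x = x := fun x => by
    have := Nat.mod_le x.1 q
    rw [Fin.ext_iff, bv, tf]; split_ifs <;> omega
  have b0 : b ⟨0, by omega⟩ = ⟨1, by omega⟩ := Fin.ext (by rw [bv]; simp [tf])
  have b1 : b ⟨1, by omega⟩ = ⟨0, by omega⟩ := by rw [← b0, bb]
  have a0 : a ⟨0, by omega⟩ = ⟨3, by omega⟩ := Fin.ext (by rw [as _ (by simp; omega)]; simp)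
  have cu : (a * b * a * b) ⟨1, by omega⟩ = a (b ⟨3, by omega⟩) := by simp [b1, a0]
  have hw : (a (b ⟨3, by omega⟩)).1 = 0 ∨ (a (b ⟨3, by omega⟩)).1 = 2 ∨
      (a (b ⟨3, by omega⟩)).1 = 4 := by
    have := bm ⟨3, by omega⟩
    rw [Fin.ext_iff] at this
    simp only at this
    rw [as _ (by omega), swap_apply_def]
    split_ifs <;> omega
  have u1 : T L M 1 5 ⟨1, by omega⟩ = ⟨5, by omega⟩ :=
    Fin.ext (by rw [T_small d1 (by omega) (by omega) _ (by simp; omega)]; simp)
  have key := comm3 (a * b * a * b) (T L M 1 5) (T_T _ _ _ _) ⟨1, by omega⟩ (fun x c1 c2 => by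
    have m1 : x.1 % M = 1 ∨ x.1 % M = 5 := by
      by_contra! hc
      exact c2 (Fin.ext (by rw [T_val d1 (by omega) (by omega), tf, if_neg hc.1, if_neg hc.2]))
    have ax : a x = x := by
      by_contra hc
      have := am x hc
      omega
    have c3 : a (b x) ≠ b x := fun e => c1 (by simp [e, bb, ax])
    have m2 := am _ c3
    have succ : ∀ y : ℕ, y % M + 1 < M → (y + 1) % M = y % M + 1 := fun y hy => by
      conv_lhs => rw [← Nat.mod_add_div y M, add_right_comm, Nat.add_mul_mod_self_left]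
      exact Nat.mod_eq_of_lt hy
    rcases bm x with ⟨e, -⟩ | e | e
    · rw [e, succ _ (by omega)] at m2; omega
    · rw [← e, succ _ (by omega)] at m1
      have m3 : (b x).1 % q = 0 := by
        rcases bm (b x) with h | h | h
        · exact h.2
        · rw [bb] at h; omega
        · rw [bb, Fin.ext_iff] at h; omega
      have hd : ∀ y, y % M = 0 → y % q = 0 → L ∣ y := fun y e1 e2 =>
        hL ▸ Nat.lcm_dvd (Nat.dvd_of_mod_eq_zero e1) (Nat.dvd_of_mod_eq_zero e2)
      have := Nat.eq_zero_of_dvd_of_lt (hd _ (by omega) m3) (b x).2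
      exact Fin.ext (by simp only; omega)
    · exact absurd (by rw [e, ax]) c3) (by rw [u1]; simp)
  have hc : a * b * a * b ∈ H := H.mul_mem (H.mul_mem (H.mul_mem (h1 _ _) (h2 _ _)) (h1 _ _)) (h2 _ _)
  have k1 := H.mul_mem (H.mul_mem (H.mul_mem hc (h1 1 5)) (H.inv_mem hc)) (h1 1 5)
  rw [key, cu, u1] at k1
  generalize a (b ⟨3, by omega⟩) = w at hw k1
  have k2 := conj_mem H (conj_mem H (conj_mem H k1 (h1 w 3)) (h1 5 2)) (h1 3 0)
  have ev : ∀ (x : Fin L) (t : ℕ) (ht : t < L), x.1 < M →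
      swap 3 0 (swap 5 2 (swap w.1 3 x.1)) = t →
      T L M 3 0 (T L M 5 2 (T L M w 3 x)) = ⟨t, ht⟩ := fun x t ht hx e => by
    have e1 := T_small (r := w) (s := 3) d1 (by omega) (by omega) x hx
    have l1 := sw_lt (r := w) (s := 3) (by omega) (by omega) hx
    have e2 := T_small (r := 5) (s := 2) d1 (by omega) (by omega) (T L M w 3 x) (by omega)
    have l2 := sw_lt (r := 5) (s := 2) (by omega) (by omega) l1
    rw [e1] at e2
    exact Fin.ext (by rw [T_small d1 (by omega) (by omega) _ (by omega), e2, e])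
  rwa [ev w 0 (by omega) (by omega) (by simp [swap_apply_def]),
    ev ⟨5, by omega⟩ 2 (by omega) (by simp; omega) (by rcases hw with h | h | h <;> simp [h, swap_apply_def]),
    ev ⟨1, by omega⟩ 1 (by omega) (by simp; omega) (by rcases hw with h | h | h <;> simp [h, swap_apply_def])]
    at k2

end

lemma w12 : (T 12 3 0 1 * T 12 3 0 2 * T 12 4 0 1 * T 12 4 0 2) ^ 20 = swap 0 2 * swap 1 2 := by
  decide +kernel

def Full (G : Subgroup (Perm ℤ)) (m : ℕ) : Prop :=
  ∀ r s g, r < s → s < m → IsHCT m r s g → g ∈ G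

lemma Full.mem {G : Subgroup (Perm ℤ)} {m : ℕ} (h : Full G m) (L : ℕ) [NeZero L] (r s : ℕ) :
    T L m r s ∈ G.comap (E L) := by
  by_cases c : m ∣ L ∧ r < m ∧ s < m
  · have := E_T c.1 c.2.1 c.2.2
    rcases lt_trichotomy r s with e | rfl | e
    · exact h r s _ e c.2.2 this
    · have : T L m r r = 1 := Perm.ext fun x => Fin.ext (by
        have := Nat.mod_le x.1 m
        rw [T_val c.1 c.2.1 c.2.2, tf, Perm.one_apply]; split_ifs <;> omega)
      rw [this]; exact one_mem _
    · exact h s r _ e c.2.1 ⟨fun j => (this.1 j).symm, fun x a b => this.2 x b a⟩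
  · rw [T, dif_neg c]; exact one_mem _

lemma full_of_top {G : Subgroup (Perm ℤ)} {L : ℕ} [NeZero L] (h : G.comap (E L) = ⊤) :
    Full G L := fun r s g h1 h2 hg => by
  rw [hg.unique (E_T dvd_rfl (h1.trans h2) h2)]
  exact (h ▸ trivial : T L L r s ∈ G.comap (E L))

theorem result (k : ℕ) (hk : 3 < k) :
    Nonempty (CT k ≃* Perm (Fin ((Finset.Icc 2 k).lcm id))) := by
  have hF : ∀ m, 2 ≤ m → m ≤ k → Full (CT k) m := fun m h1 h2 r s g a b c =>
    Subgroup.subset_closure ⟨m, r, s, h1, h2, a, b, c⟩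
  have h0 : ∀ j, (Finset.Icc 2 j).lcm id ≠ 0 := fun j => by
    rw [Ne, Finset.lcm_eq_zero_iff]; simp
  have key : ∀ j, 4 ≤ j → j ≤ k → ∀ L [NeZero L], L = (Finset.Icc 2 j).lcm id →
      12 ≤ L ∧ (CT k).comap (E L) = ⊤ := by
    intro j hj
    induction j, hj using Nat.le_induction with
    | base =>
      intro h4 L _ hL
      obtain rfl : L = 12 := hL.trans (by decide)
      have a3 := (hF 3 (by omega) (by omega)).mem 12
      have a4 := (hF 4 (by omega) (by omega)).mem 12
      refine ⟨le_rfl, top _ (M := 4) (q := 3) (by decide) (by omega) (by omega) a4 a3 (by omega) ?_⟩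
      have := Subgroup.pow_mem _ (mul_mem (mul_mem (mul_mem (a3 0 1) (a3 0 2)) (a4 0 1)) (a4 0 2)) 20
      rwa [w12] at this
    | succ j hj ih =>
      intro h4 L _ hL
      have : NeZero ((Finset.Icc 2 j).lcm id) := ⟨h0 j⟩
      obtain ⟨i1, i2⟩ := ih (by omega) _ rfl
      have e : L = Nat.lcm ((Finset.Icc 2 j).lcm id) (j + 1) := by
        rw [hL, ← Finset.insert_Icc_right_eq_Icc_add_one (by omega), Finset.lcm_insert, Nat.lcm_comm]
        rfl
      have l : (Finset.Icc 2 j).lcm id ≤ L :=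
        Nat.le_of_dvd (NeZero.pos L) (e ▸ Nat.dvd_lcm_left _ _)
      have a3 := (full_of_top i2).mem L
      have a4 := (hF (j + 1) (by omega) h4).mem L
      exact ⟨by omega, top _ e (by omega) (by omega) a3 a4 (by omega)
        (three7 _ e (by omega) (by omega) a3 a4 (by omega))⟩
  have : NeZero ((Finset.Icc 2 k).lcm id) := ⟨h0 k⟩
  have h1 : CT k = (E ((Finset.Icc 2 k).lcm id)).range := by
    refine le_antisymm ((Subgroup.closure_le _).2 ?_) ?_
    · rintro g ⟨m, r, s, a, b, c, d, hg⟩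
      exact ⟨_, (hg.unique (E_T (Finset.dvd_lcm (f := id) (Finset.mem_Icc.2 ⟨a, b⟩))
        (c.trans d) d)).symm⟩
    · rintro _ ⟨σ, rfl⟩
      exact ((key k hk le_rfl _ rfl).2 ▸ trivial : σ ∈ (CT k).comap (E _))
  exact ⟨(MulEquiv.subgroupCongr h1).trans (MonoidHom.ofInjective (E_inj _)).symm⟩

end Pool.Agent.Results.MP_8fd2f5_al.Symmetric
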